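import Pool.Agent.helper8.GD.Spec

/-! Project gd, modules NUM and SL5. -/

set_option autoImplicit false

namespace GD

open Finset ArithmeticFunction

theorem NUM : NUM_stmt := by
  have h2 := Real.log_two_lt_d9
  have h2' : 0 < Real.log 2 := Real.log_pos (by norm_num)
  have h8 : Real.log 8 = 3 * Real.log 2 := by
    rw [show (8 : ℝ) = 2 ^ 3 by norm_num, Real.log_pow]; norm_num
  have h3 : 5 * Real.log 3 ≤ 8 * Real.log 2 := by
    have e1 : 5 * Real.log 3 = Real.log (3 ^ 5) := by rw [Real.log_pow]; norm_num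
    have e2 : 8 * Real.log 2 = Real.log (2 ^ 8) := by rw [Real.log_pow]; norm_num
    rw [e1, e2]
    exact Real.log_le_log (by norm_num) (by norm_num)
  have ha : Real.log (υ₁ / ρ₁) ≤ 3 * Real.log 2 := by
    rw [← h8]
    apply Real.log_le_log
    · unfold υ₁ ρ₁; norm_num
    · unfold υ₁ ρ₁; norm_num
  have hb : Real.log (υ₂ / ρ₂) ≤ 8 / 5 * Real.log 2 := by
    have : Real.log (υ₂ / ρ₂) ≤ Real.log 3 := by
      apply Real.log_le_log
      · unfold υ₂ ρ₂; norm_num
      · unfold υ₂ ρ₂; norm_num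
    linarith
  have hT1 : T₁ = 18247 / 5300 := by unfold T₁ υ₁; norm_num
  have hT2 : T₂ = 24841 / 5900 := by unfold T₂ υ₂; norm_num
  have hr1 : ρ₁ / (2 * υ₁) = 10 / 159 := by unfold ρ₁ υ₁; norm_num
  have hr2 : ρ₂ / (2 * υ₂) = 10 / 59 := by unfold ρ₂ υ₂; norm_num
  unfold NUM_stmt
  rw [hr1, hr2, hT1, hT2]
  have k1 : (Real.log (υ₁ / ρ₁) + 10 / 159) / (18247 / 5300) ≤
      (3 * 0.6931471808 + 10 / 159) / (18247 / 5300) := by
    apply div_le_div_of_nonneg_right _ (by norm_num)
    linarith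
  have k2 : (Real.log (υ₂ / ρ₂) + 10 / 59) / (24841 / 5900) ≤
      (8 / 5 * 0.6931471808 + 10 / 59) / (24841 / 5900) := by
    apply div_le_div_of_nonneg_right _ (by norm_num)
    linarith
  refine (add_le_add k1 k2).trans ?_
  norm_num

theorem SL5 : SL5_stmt := by
  intro Q R A hQ hR
  classical
  have hl : ∀ K ∈ Sub Q R, ∀ l ∈ K, (7 : ℝ) ≤ l := by
    intro K hK l hlK
    have h1 : K ⊆ Q := Finset.mem_powerset.1 (Finset.mem_filter.1 hK).1
    exact_mod_cast (hQ l (h1 hlK)).2
  have hhn : ∀ K : Finset ℕ, (∀ l ∈ K, (7 : ℝ) ≤ l) → 0 ≤ hh K := by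
    intro K hK
    unfold hh
    refine Finset.prod_nonneg fun l hl => ?_
    have := hK l hl
    exact div_nonneg (by norm_num) (by linarith)
  have key : ∀ K ∈ Sub Q R, |ch K A * hh K| = hh (K \ A) := by
    intro K hK
    unfold ch hh
    rw [← Finset.prod_mul_distrib, Finset.abs_prod]
    rw [← Finset.sdiff_union_inter K A, Finset.prod_union (Finset.disjoint_sdiff_inter K A)]
    have e0 : (K \ A ∪ K ∩ A) \ A = K \ A := by
      rw [Finset.sdiff_union_inter]
    rw [e0]
    have e1 : ∏ x ∈ K ∩ A, |(if x ∈ A then 1 - (x : ℝ) / 2 else 1) * (2 / ((x : ℝ) - 2))| = 1 := by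
      refine Finset.prod_eq_one fun x hx => ?_
      rw [Finset.mem_inter] at hx
      have h7 := hl K hK x hx.1
      rw [if_pos hx.2]
      have : (1 - (x : ℝ) / 2) * (2 / ((x : ℝ) - 2)) = -1 := by
        have h0 : (x : ℝ) - 2 ≠ 0 := by linarith
        field_simp
        ring
      rw [this]
      simp
    rw [e1, mul_one]
    refine Finset.prod_congr rfl fun x hx => ?_
    rw [Finset.mem_sdiff] at hx
    have h7 := hl K hK x hx.1
    rw [if_neg hx.2, one_mul, abs_of_nonneg (div_nonneg (by norm_num) (by linarith))]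
  have hsub : ∀ K ∈ Sub Q R, K \ A ∈ Sub Q R := by
    intro K hK
    have h1 : K ⊆ Q := Finset.mem_powerset.1 (Finset.mem_filter.1 hK).1
    have h2 : (pr K : ℝ) ≤ R := (Finset.mem_filter.1 hK).2
    refine Finset.mem_filter.2 ⟨Finset.mem_powerset.2 (Finset.sdiff_subset.trans h1), ?_⟩
    refine le_trans ?_ h2
    have : pr (K \ A) ≤ pr K := by
      unfold pr
      refine Finset.prod_le_prod_of_subset_of_one_le' Finset.sdiff_subset ?_
      intro l hlK _
      have := (hQ l (h1 hlK)).2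
      omega
    exact_mod_cast this
  unfold Sg
  calc |∑ K ∈ Sub Q R, ch K A * hh K| ≤ ∑ K ∈ Sub Q R, |ch K A * hh K| :=
        Finset.abs_sum_le_sum_abs _ _
    _ = ∑ K ∈ Sub Q R, hh (K \ A) := Finset.sum_congr rfl key
    _ = ∑ x ∈ (Sub Q R).image (fun K => (K \ A, K ∩ A)), hh x.1 := by
        rw [Finset.sum_image]
        intro K _ K' _ h
        have h1 : K \ A = K' \ A := congrArg Prod.fst h
        have h2 : K ∩ A = K' ∩ A := congrArg Prod.snd h
        rw [← Finset.sdiff_union_inter K A, ← Finset.sdiff_union_inter K' A, h1, h2]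
    _ ≤ ∑ x ∈ (Sub Q R) ×ˢ A.powerset, hh x.1 := by
        refine Finset.sum_le_sum_of_subset_of_nonneg ?_ ?_
        · intro x hx
          obtain ⟨K, hK, rfl⟩ := Finset.mem_image.1 hx
          exact Finset.mem_product.2 ⟨hsub K hK, Finset.mem_powerset.2 Finset.inter_subset_right⟩
        · intro x hx _
          exact hhn _ (hl _ (Finset.mem_product.1 hx).1)
    _ = 2 ^ #A * Gs Q R := by
        rw [Finset.sum_product]
        unfold Gs
        rw [Finset.mul_sum]
        refine Finset.sum_congr rfl fun K _ => ?_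
        show ∑ y ∈ A.powerset, hh K = 2 ^ #A * hh K
        rw [Finset.sum_const, Finset.card_powerset, nsmul_eq_mul]
        push_cast
        ring

end GD
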