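import Pool.Agent.helper8.GD.Spec

/-! Project gd, module SL2. -/

set_option autoImplicit false

namespace GD

open Finset ArithmeticFunction

theorem SL2_count (D : Finset ℕ) :
    #((D.powerset ×ˢ D.powerset).filter fun x => x.1 ∪ x.2 = D) ≤ 3 ^ #D := by
  have h1 : #((D.powerset ×ˢ D.powerset).filter fun x => x.1 ∪ x.2 = D) ≤
      #(D.powerset.sigma fun D₁ => D₁.powerset) := by
    refine Finset.card_le_card_of_injOn (fun x => ⟨x.1, x.1 ∩ x.2⟩) ?_ ?_
    · intro x hx
      have hx' := Finset.mem_filter.1 (Finset.mem_coe.1 hx)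
      have h2 := Finset.mem_product.1 hx'.1
      exact Finset.mem_coe.2 (Finset.mem_sigma.2 ⟨h2.1, Finset.mem_powerset.2 Finset.inter_subset_left⟩)
    · intro x hx y hy hxy
      have hx' := (Finset.mem_filter.1 (Finset.mem_coe.1 hx)).2
      have hy' := (Finset.mem_filter.1 (Finset.mem_coe.1 hy)).2
      have h2 : x.1 = y.1 := congrArg Sigma.fst hxy
      have h3 : x.1 ∩ x.2 = y.1 ∩ y.2 := by
        have := (Sigma.ext_iff.1 hxy).2
        exact eq_of_heq this
      refine Prod.ext h2 ?_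
      ext a
      have e1 : a ∈ x.1 ∪ x.2 ↔ a ∈ y.1 ∪ y.2 := by rw [hx', hy']
      have e2 : a ∈ x.1 ∩ x.2 ↔ a ∈ y.1 ∩ y.2 := by rw [h3]
      rw [Finset.mem_union, Finset.mem_union] at e1
      rw [Finset.mem_inter, Finset.mem_inter] at e2
      rw [← h2] at e1 e2
      tauto
  refine h1.trans ?_
  rw [Finset.card_sigma]
  have h2 := Finset.sum_pow_mul_eq_add_pow (2 : ℕ) 1 D
  have h3 : ∑ a ∈ D.powerset, #a.powerset = (2 + 1) ^ #D := by
    rw [← h2]
    refine Finset.sum_congr rfl fun t _ => ?_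
    rw [Finset.card_powerset, one_pow, mul_one]
  rw [h3]

theorem SL2 : SL2_stmt := by
  intro Q ξ ξ' K K' G G' R R' hQ hK hK' hG hG' hR hR' hξ hξ'
  refine ⟨fun D => ∑ x ∈ (D.powerset ×ˢ D.powerset).filter (fun x => x.1 ∪ x.2 = D),
    ξ x.1 * ξ' x.2, ?_, ?_⟩
  · intro D hD
    have hDQ : D ⊆ Q := Finset.mem_powerset.1 hD
    constructor
    · have h1 : ∀ x ∈ (D.powerset ×ˢ D.powerset).filter (fun x => x.1 ∪ x.2 = D),
          |ξ x.1 * ξ' x.2| ≤ ((K : ℝ) ^ #D * G) * ((K' : ℝ) ^ #D * G') := by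
        intro x hx
        have h2 := Finset.mem_product.1 (Finset.mem_filter.1 hx).1
        have h3 : x.1 ⊆ D := Finset.mem_powerset.1 h2.1
        have h4 : x.2 ⊆ D := Finset.mem_powerset.1 h2.2
        have h5 := (hξ x.1 (Finset.mem_powerset.2 (h3.trans hDQ))).1
        have h6 := (hξ' x.2 (Finset.mem_powerset.2 (h4.trans hDQ))).1
        have hK1 : (1 : ℝ) ≤ K := by exact_mod_cast hK
        have hK1' : (1 : ℝ) ≤ K' := by exact_mod_cast hK'
        rw [abs_mul]
        refine mul_le_mul (h5.trans ?_) (h6.trans ?_) (abs_nonneg _) (by positivity)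
        · exact mul_le_mul_of_nonneg_right
            (pow_le_pow_right₀ hK1 (Finset.card_le_card h3)) hG
        · exact mul_le_mul_of_nonneg_right
            (pow_le_pow_right₀ hK1' (Finset.card_le_card h4)) hG'
      calc |∑ x ∈ (D.powerset ×ˢ D.powerset).filter (fun x => x.1 ∪ x.2 = D), ξ x.1 * ξ' x.2|
          ≤ ∑ x ∈ (D.powerset ×ˢ D.powerset).filter (fun x => x.1 ∪ x.2 = D),
            |ξ x.1 * ξ' x.2| := Finset.abs_sum_le_sum_abs _ _
        _ ≤ ∑ _x ∈ (D.powerset ×ˢ D.powerset).filter (fun x => x.1 ∪ x.2 = D),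
            ((K : ℝ) ^ #D * G) * ((K' : ℝ) ^ #D * G') := Finset.sum_le_sum h1
        _ = (#((D.powerset ×ˢ D.powerset).filter (fun x => x.1 ∪ x.2 = D)) : ℝ) *
            (((K : ℝ) ^ #D * G) * ((K' : ℝ) ^ #D * G')) := by
            rw [Finset.sum_const, nsmul_eq_mul]
        _ ≤ (3 : ℝ) ^ #D * (((K : ℝ) ^ #D * G) * ((K' : ℝ) ^ #D * G')) := by
            refine mul_le_mul_of_nonneg_right ?_ (by positivity)
            exact_mod_cast SL2_count D
        _ = ((3 * K * K' : ℕ) : ℝ) ^ #D * (G * G') := by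
            push_cast
            rw [mul_pow, mul_pow]
            ring
    · intro hne
      obtain ⟨x, hx, hx0⟩ := Finset.exists_ne_zero_of_sum_ne_zero hne
      have h2 := Finset.mem_product.1 (Finset.mem_filter.1 hx).1
      have hu : x.1 ∪ x.2 = D := (Finset.mem_filter.1 hx).2
      have h3 : x.1 ⊆ D := Finset.mem_powerset.1 h2.1
      have h4 : x.2 ⊆ D := Finset.mem_powerset.1 h2.2
      have h5 := (hξ x.1 (Finset.mem_powerset.2 (h3.trans hDQ))).2 (left_ne_zero_of_mul hx0)
      have h6 := (hξ' x.2 (Finset.mem_powerset.2 (h4.trans hDQ))).2 (right_ne_zero_of_mul hx0)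
      have h7 : pr D ≤ pr x.1 * pr x.2 := by
        unfold pr
        rw [← Finset.prod_union_inter, hu]
        refine Nat.le_mul_of_pos_right _ ?_
        refine Finset.prod_pos fun l hl => ?_
        exact hQ l (hDQ (h3 (Finset.mem_inter.1 hl).1))
      calc (pr D : ℝ) ≤ (pr x.1 : ℝ) * (pr x.2 : ℝ) := by exact_mod_cast h7
        _ ≤ R * R' := mul_le_mul h5 h6 (Nat.cast_nonneg _) (by linarith)
  · intro A _
    rw [Finset.sum_mul_sum, ← Finset.sum_product']
    rw [← Finset.sum_fiberwise_of_maps_to (s := A.powerset ×ˢ A.powerset) (t := A.powerset)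
      (g := fun x => x.1 ∪ x.2)]
    · refine Finset.sum_congr rfl fun D hD => ?_
      have hDA : D ⊆ A := Finset.mem_powerset.1 hD
      refine Finset.sum_congr ?_ fun _ _ => rfl
      ext x
      simp only [Finset.mem_filter, Finset.mem_product, Finset.mem_powerset]
      constructor
      · rintro ⟨⟨a, b⟩, c⟩
        exact ⟨⟨a.trans hDA, b.trans hDA⟩, c⟩
      · rintro ⟨-, c⟩
        exact ⟨⟨by rw [← c]; exact Finset.subset_union_left,
          by rw [← c]; exact Finset.subset_union_right⟩, c⟩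
    · intro x hx
      have h2 := Finset.mem_product.1 hx
      exact Finset.mem_powerset.2 (Finset.union_subset (Finset.mem_powerset.1 h2.1)
        (Finset.mem_powerset.1 h2.2))

end GD
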